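import Pool.Agent.H751R2.LHY.Defs

/-!
# Clipping (task T12 of helper751's project on the dilute Bose gas), by helper44
-/

open MeasureTheory UnitAddTorus Filter Topology
open scoped ComplexConjugate ENNReal

namespace Pool.Agent.H751R2.LHY

noncomputable section

namespace ClipH44

/-! ### elementary facts on characters -/

theorem mF_add_arg (n : Mom) (x y : T3) :
    mFourier n (x + y) = mFourier n x * mFourier n y := by
  simp only [mFourier, ContinuousMap.coe_mk, Pi.add_apply, ← Finset.prod_mul_distrib]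
  refine Finset.prod_congr rfl fun i _ => ?_
  rw [fourier_apply, fourier_apply, fourier_apply, smul_add, AddCircle.toCircle_add,
    Circle.coe_mul]

theorem mF_neg_arg (n : Mom) (x : T3) : mFourier n (-x) = conj (mFourier n x) := by
  rw [← mFourier_neg]
  simp only [mFourier, ContinuousMap.coe_mk, Pi.neg_apply]
  refine Finset.prod_congr rfl fun i _ => ?_
  rw [fourier_apply, fourier_apply, smul_neg, neg_smul]

theorem mF_norm (n : Mom) (x : T3) : ‖mFourier n x‖ = 1 := by
  simp only [mFourier, ContinuousMap.coe_mk, norm_prod, fourier_apply, Circle.norm_coe,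
    Finset.prod_const_one]

theorem cs_cont (n : Mom) : Continuous (cs n) :=
  Complex.continuous_re.comp (mFourier n).continuous

theorem cs_neg (n : Mom) (y : T3) : cs (-n) y = cs n y := by
  unfold cs
  rw [mFourier_neg, Complex.conj_re]

theorem cs_neg_arg (n : Mom) (y : T3) : cs n (-y) = cs n y := by
  unfold cs
  rw [mF_neg_arg, Complex.conj_re]

theorem cs_abs (n : Mom) (y : T3) : |cs n y| ≤ 1 := by
  unfold cs
  exact (Complex.abs_re_le_norm _).trans (mF_norm n y).le

theorem wf_cont (B : Finset Mom) (c : Mom → ℝ) : Continuous (wf B c) := by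
  unfold wf
  exact continuous_finsetSum _ fun n _ => continuous_const.mul (cs_cont n)

theorem wf_neg_arg (B : Finset Mom) (c : Mom → ℝ) (y : T3) : wf B c (-y) = wf B c y := by
  unfold wf
  exact Finset.sum_congr rfl fun n _ => by rw [cs_neg_arg]

/-- the real trigonometric polynomial as a complex one -/
theorem wf_complex {B : Finset Mom} (hB : Sym B) {c : Mom → ℝ} (hc : ∀ n, c (-n) = c n) (y : T3) :
    ((wf B c y : ℝ) : ℂ) = ∑ n ∈ B, (c n : ℂ) * mFourier n y := by
  have h1 : ∑ n ∈ B, (c n : ℂ) * mFourier n y = ∑ n ∈ B, (c n : ℂ) * conj (mFourier n y) := by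
    refine Finset.sum_nbij' (fun n => -n) (fun n => -n) ?_ ?_ ?_ ?_ ?_
    · intro n hn; exact hB.neg n hn
    · intro n hn; exact hB.neg n hn
    · intro n _; exact neg_neg n
    · intro n _; exact neg_neg n
    · intro n _
      rw [mFourier_neg, Complex.conj_conj, hc]
  have h2 : conj (∑ n ∈ B, (c n : ℂ) * mFourier n y) = ∑ n ∈ B, (c n : ℂ) * mFourier n y := by
    conv_rhs => rw [h1]
    rw [map_sum]
    exact Finset.sum_congr rfl fun n _ => by rw [map_mul, Complex.conj_ofReal]
  have h3 : (∑ n ∈ B, (c n : ℂ) * mFourier n y).re = wf B c y := by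
    rw [Complex.re_sum]
    unfold wf cs
    exact Finset.sum_congr rfl fun n _ => by rw [Complex.re_ofReal_mul]
  rw [← h3]
  exact Complex.conj_eq_iff_re.mp h2

/-! ### Bessel and Parseval -/

theorem bessel (g : C(T3, ℂ)) (F : Finset Mom) :
    ∑ n ∈ F, ‖mFourierCoeff g n‖ ^ 2 ≤ ∫ y, ‖g y‖ ^ 2 := by
  have h := hasSum_sq_mFourierCoeff (ContinuousMap.toLp (E := ℂ) 2 volume ℂ g)
  have h1 : ∀ n, mFourierCoeff (ContinuousMap.toLp (E := ℂ) 2 volume ℂ g) n = mFourierCoeff g n :=
    fun n => mFourierCoeff_toLp g n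
  have h2 : ∫ y, ‖(ContinuousMap.toLp (E := ℂ) 2 volume ℂ g) y‖ ^ 2 = ∫ y, ‖g y‖ ^ 2 := by
    refine integral_congr_ae ?_
    filter_upwards [ContinuousMap.coeFn_toLp (𝕜 := ℂ) (p := 2) volume g] with y hy
    rw [hy]
  rw [h2] at h
  have h3 := sum_le_hasSum F (fun n _ => by positivity) h
  simpa only [h1] using h3

theorem orth (m n : Mom) :
    ∫ y : T3, conj (mFourier m y) * mFourier n y = if m = n then 1 else 0 := by
  have h := (orthonormal_iff_ite.mp (orthonormal_mFourier (d := Fin 3))) m n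
  rw [ContinuousMap.inner_toLp] at h
  rw [← h]
  refine integral_congr_ae (Filter.Eventually.of_forall fun y => ?_)
  simp [mul_comm]

theorem parseval_poly (B : Finset Mom) (a : Mom → ℂ) :
    ∫ y : T3, ‖∑ n ∈ B, a n * mFourier n y‖ ^ 2 = ∑ n ∈ B, ‖a n‖ ^ 2 := by
  have h1 : ∀ y : T3, ((‖∑ n ∈ B, a n * mFourier n y‖ ^ 2 : ℝ) : ℂ) =
      ∑ m ∈ B, ∑ n ∈ B, (conj (a m) * a n) * (conj (mFourier m y) * mFourier n y) := by
    intro y
    rw [Complex.ofReal_pow, ← Complex.conj_mul', map_sum, Finset.sum_mul_sum]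
    refine Finset.sum_congr rfl fun m _ => Finset.sum_congr rfl fun n _ => ?_
    rw [map_mul]; ring
  have h2 : ((∫ y : T3, ‖∑ n ∈ B, a n * mFourier n y‖ ^ 2 : ℝ) : ℂ) =
      ∑ n ∈ B, ((‖a n‖ ^ 2 : ℝ) : ℂ) := by
    rw [← integral_complex_ofReal]
    simp_rw [h1]
    rw [integral_finsetSum]
    · refine Finset.sum_congr rfl fun m hm => ?_
      rw [integral_finsetSum]
      · simp_rw [integral_const_mul, orth]
        rw [Finset.sum_eq_single m]
        · rw [if_pos rfl, mul_one, Complex.conj_mul', Complex.ofReal_pow]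
        · intro b _ hb
          rw [if_neg (Ne.symm hb), mul_zero]
        · intro h; exact absurd hm h
      · intro n _
        refine Integrable.const_mul ?_ _
        exact (by fun_prop : Continuous fun y : T3 => conj (mFourier m y) * mFourier n y).integrable_of_hasCompactSupport
          (HasCompactSupport.of_compactSpace _)
    · intro m _
      refine integrable_finsetSum _ fun n _ => ?_
      refine Integrable.const_mul ?_ _
      exact (by fun_prop : Continuous fun y : T3 => conj (mFourier m y) * mFourier n y).integrable_of_hasCompactSupport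
          (HasCompactSupport.of_compactSpace _)
  rw [← Complex.ofReal_sum] at h2
  exact_mod_cast h2

theorem cont_integrable {f : T3 → ℂ} (hf : Continuous f) : Integrable f :=
  hf.integrable_of_hasCompactSupport (HasCompactSupport.of_compactSpace _)

theorem cont_integrable_real {f : T3 → ℝ} (hf : Continuous f) : Integrable f :=
  hf.integrable_of_hasCompactSupport (HasCompactSupport.of_compactSpace _)

/-! ### Dirichlet forms by translations -/

theorem coeff_diff {f : T3 → ℝ} (hf : Continuous f) (h : T3) (n : Mom) :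
    mFourierCoeff (fun y => ((f (y + h) - f y : ℝ) : ℂ)) n =
      (mFourier n h - 1) * mFourierCoeff (fun y => (f y : ℂ)) n := by
  unfold mFourierCoeff
  simp only [smul_eq_mul, Complex.ofReal_sub, mul_sub]
  rw [integral_sub]
  · have h1 : ∫ y : T3, mFourier (-n) y * ((f (y + h) : ℝ) : ℂ) =
        ∫ y : T3, mFourier (-n) (y - h) * ((f y : ℝ) : ℂ) := by
      rw [← integral_add_right_eq_self (fun y : T3 => mFourier (-n) (y - h) * ((f y : ℝ) : ℂ)) h]
      simp only [add_sub_cancel_right]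
    rw [h1]
    have h2 : ∀ y : T3, mFourier (-n) (y - h) * ((f y : ℝ) : ℂ) =
        mFourier n h * (mFourier (-n) y * (f y : ℂ)) := by
      intro y
      rw [sub_eq_add_neg, mF_add_arg, mF_neg_arg, mFourier_neg (x := h), Complex.conj_conj]
      ring
    simp_rw [h2]
    rw [integral_const_mul]
    ring
  · apply cont_integrable; fun_prop
  · apply cont_integrable; fun_prop

theorem transl_energy {B : Finset Mom} (hB : Sym B) {c : Mom → ℝ} (hc : ∀ n, c (-n) = c n)
    {f : T3 → ℝ} (hf : Continuous f) (hfw : ∀ x y, |f x - f y| ≤ |wf B c x - wf B c y|)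
    (F : Finset Mom) (h : T3) :
    ∑ n ∈ F, ‖mFourier n h - 1‖ ^ 2 * ‖mFourierCoeff (fun y => (f y : ℂ)) n‖ ^ 2 ≤
      ∑ n ∈ B, ‖mFourier n h - 1‖ ^ 2 * c n ^ 2 := by
  have hg : Continuous fun y : T3 => ((f (y + h) - f y : ℝ) : ℂ) := by fun_prop
  have h1 := bessel ⟨_, hg⟩ F
  simp only [ContinuousMap.coe_mk] at h1
  simp_rw [coeff_diff hf h, norm_mul, mul_pow] at h1
  refine h1.trans ?_
  have h2 : ∀ y : T3, ((wf B c (y + h) - wf B c y : ℝ) : ℂ) =
      ∑ n ∈ B, ((mFourier n h - 1) * (c n : ℂ)) * mFourier n y := by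
    intro y
    rw [Complex.ofReal_sub, wf_complex hB hc, wf_complex hB hc, ← Finset.sum_sub_distrib]
    refine Finset.sum_congr rfl fun n _ => ?_
    rw [mF_add_arg]; ring
  have h3 : ∫ y : T3, ‖((wf B c (y + h) - wf B c y : ℝ) : ℂ)‖ ^ 2 =
      ∑ n ∈ B, ‖mFourier n h - 1‖ ^ 2 * c n ^ 2 := by
    simp_rw [h2]
    rw [parseval_poly]
    refine Finset.sum_congr rfl fun n _ => ?_
    rw [norm_mul, mul_pow, Complex.norm_real, Real.norm_eq_abs, sq_abs]
  rw [← h3]
  refine integral_mono ?_ ?_ ?_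
  · apply cont_integrable_real; fun_prop
  · have := wf_cont B c
    apply cont_integrable_real; fun_prop
  · intro y
    simp only [Complex.norm_real, Real.norm_eq_abs, sq_abs]
    exact sq_le_sq.mpr (hfw (y + h) y)

theorem mF_single (n : Mom) (a : Fin 3) (t : ℝ) :
    mFourier n (Pi.single a (t : UnitAddCircle) : T3) =
      Complex.exp (2 * Real.pi * Complex.I * (n a) * t) := by
  simp only [mFourier, ContinuousMap.coe_mk]
  rw [Finset.prod_eq_single a]
  · rw [Pi.single_eq_same, fourier_coe_apply]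
    simp
  · intro b _ hb
    rw [Pi.single_eq_of_ne hb, fourier_eval_zero]
  · intro h; exact absurd (Finset.mem_univ a) h

theorem mF_single_lim (n : Mom) (a : Fin 3) :
    Tendsto (fun t : ℝ => ‖mFourier n (Pi.single a (t : UnitAddCircle) : T3) - 1‖ ^ 2 / t ^ 2)
      (𝓝[≠] 0) (𝓝 (4 * Real.pi ^ 2 * (n a : ℝ) ^ 2)) := by
  have h1 : HasDerivAt (fun t : ℝ => Complex.exp (2 * Real.pi * Complex.I * (n a) * t))
      (2 * Real.pi * Complex.I * (n a)) 0 := by
    have h2 : HasDerivAt (fun t : ℝ => (2 * Real.pi * Complex.I * (n a) * (t : ℂ)))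
        (2 * Real.pi * Complex.I * (n a)) 0 := by
      simpa using (Complex.ofRealCLM.hasDerivAt (x := (0 : ℝ))).const_mul
        (2 * Real.pi * Complex.I * (n a) : ℂ)
    simpa using h2.cexp
  have h3 := h1.tendsto_slope_zero
  have h4 := (h3.norm).pow 2
  have h5 : ‖(2 * Real.pi * Complex.I * (n a) : ℂ)‖ ^ 2 = 4 * Real.pi ^ 2 * (n a : ℝ) ^ 2 := by
    simp only [norm_mul, Complex.norm_I, mul_one, Complex.norm_real, Complex.norm_ofNat,
      Complex.norm_intCast, Real.norm_eq_abs, mul_pow, sq_abs]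
    norm_num
  rw [h5] at h4
  refine h4.congr fun t => ?_
  rw [norm_smul, mul_pow, norm_inv, Real.norm_eq_abs, inv_pow, sq_abs, mF_single]
  simp only [zero_add, Complex.ofReal_zero, mul_zero, Complex.exp_zero]
  rw [div_eq_inv_mul]

theorem dirichlet_le {B : Finset Mom} (hB : Sym B) {c : Mom → ℝ} (hc : ∀ n, c (-n) = c n)
    {f : T3 → ℝ} (hf : Continuous f) (hfw : ∀ x y, |f x - f y| ≤ |wf B c x - wf B c y|)
    (F : Finset Mom) :
    ∑ n ∈ F, sq n * ‖mFourierCoeff (fun y => (f y : ℂ)) n‖ ^ 2 ≤ ∑ n ∈ B, sq n * c n ^ 2 := by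
  have h1 : ∀ a : Fin 3, ∑ n ∈ F, (4 * Real.pi ^ 2 * (n a : ℝ) ^ 2) *
      ‖mFourierCoeff (fun y => (f y : ℂ)) n‖ ^ 2 ≤
      ∑ n ∈ B, (4 * Real.pi ^ 2 * (n a : ℝ) ^ 2) * c n ^ 2 := by
    intro a
    have h2 : Tendsto (fun t : ℝ => ∑ n ∈ F,
        (‖mFourier n (Pi.single a (t : UnitAddCircle) : T3) - 1‖ ^ 2 / t ^ 2) *
        ‖mFourierCoeff (fun y => (f y : ℂ)) n‖ ^ 2) (𝓝[≠] 0)
        (𝓝 (∑ n ∈ F, (4 * Real.pi ^ 2 * (n a : ℝ) ^ 2) *
          ‖mFourierCoeff (fun y => (f y : ℂ)) n‖ ^ 2)) :=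
      tendsto_finsetSum _ fun n _ => (mF_single_lim n a).mul_const _
    have h3 : Tendsto (fun t : ℝ => ∑ n ∈ B,
        (‖mFourier n (Pi.single a (t : UnitAddCircle) : T3) - 1‖ ^ 2 / t ^ 2) * c n ^ 2) (𝓝[≠] 0)
        (𝓝 (∑ n ∈ B, (4 * Real.pi ^ 2 * (n a : ℝ) ^ 2) * c n ^ 2)) :=
      tendsto_finsetSum _ fun n _ => (mF_single_lim n a).mul_const _
    refine le_of_tendsto_of_tendsto' h2 h3 fun t => ?_
    have h4 := transl_energy hB hc hf hfw F (Pi.single a (t : UnitAddCircle) : T3)
    have h5 : ∀ (G : Finset Mom) (u v : Mom → ℝ), ∑ n ∈ G, u n / t ^ 2 * v n =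
        (∑ n ∈ G, u n * v n) / t ^ 2 := by
      intro G u v
      rw [Finset.sum_div]
      exact Finset.sum_congr rfl fun n _ => by ring
    rw [h5, h5]
    exact div_le_div_of_nonneg_right h4 (by positivity)
  have h6 : ∀ (G : Finset Mom) (v : Mom → ℝ), ∑ n ∈ G, sq n * v n =
      (4 * Real.pi ^ 2)⁻¹ * ∑ a : Fin 3, ∑ n ∈ G, (4 * Real.pi ^ 2 * (n a : ℝ) ^ 2) * v n := by
    intro G v
    rw [Finset.sum_comm, Finset.mul_sum]
    refine Finset.sum_congr rfl fun n _ => ?_
    unfold sq
    rw [← Finset.sum_mul, ← Finset.mul_sum]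
    have := Real.pi_pos
    field_simp
  rw [h6, h6]
  exact mul_le_mul_of_nonneg_left (Finset.sum_le_sum fun a _ => h1 a) (by positivity)

/-! ### real even functions -/

theorem negInv : (volume : Measure T3).IsNegInvariant :=
  Measure.IsAddHaarMeasure.isNegInvariant_of_regular volume

attribute [local instance] negInv

theorem coeff_even {f : T3 → ℝ} (hf : Continuous f) (he : ∀ y, f (-y) = f y) (n : Mom) :
    mFourierCoeff (fun y => (f y : ℂ)) n = ((∫ y, f y * cs n y : ℝ) : ℂ) := by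
  have h1 : conj (mFourierCoeff (fun y => (f y : ℂ)) n) =
      mFourierCoeff (fun y => (f y : ℂ)) n := by
    unfold mFourierCoeff
    rw [← integral_conj, ← integral_neg_eq_self (fun t : T3 => mFourier (-n) t • ((f t : ℝ) : ℂ))]
    refine integral_congr_ae (Filter.Eventually.of_forall fun y => ?_)
    simp only [smul_eq_mul, map_mul, Complex.conj_ofReal, mF_neg_arg, he]
  have h2 : (mFourierCoeff (fun y => (f y : ℂ)) n).re = ∫ y, f y * cs n y := by
    unfold mFourierCoeff
    have hi : Integrable fun t : T3 => mFourier (-n) t • ((f t : ℝ) : ℂ) :=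
      cont_integrable (by fun_prop)
    rw [← Complex.reCLM_apply, ← ContinuousLinearMap.integral_comp_comm _ hi]
    refine integral_congr_ae (Filter.Eventually.of_forall fun y => ?_)
    simp only [Complex.reCLM_apply, smul_eq_mul, Complex.re_mul_ofReal]
    rw [mul_comm]
    congr 1
    exact cs_neg n y
  rw [← h2]
  exact (Complex.conj_eq_iff_re.mp h1).symm

/-! ### the kernel -/

/-- `∏ (1 + cos 2π s_a)/2` -/
def ker (s : T3) : ℝ := ∏ a : Fin 3, (1 + cs (Pi.single a 1) s) / 2

theorem ker_cont : Continuous ker := by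
  unfold ker
  exact continuous_finsetProd _ fun a _ =>
    (continuous_const.add (cs_cont _)).div_const _

theorem ker_factor_nonneg (a : Fin 3) (s : T3) : 0 ≤ (1 + cs (Pi.single a 1) s) / 2 := by
  have := abs_le.mp (cs_abs (Pi.single a 1) s)
  linarith

theorem ker_factor_le (a : Fin 3) (s : T3) : (1 + cs (Pi.single a 1) s) / 2 ≤ 1 := by
  have := abs_le.mp (cs_abs (Pi.single a 1) s)
  linarith

theorem ker_nonneg (s : T3) : 0 ≤ ker s :=
  Finset.prod_nonneg fun a _ => ker_factor_nonneg a s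

theorem ker_neg (s : T3) : ker (-s) = ker s := by
  unfold ker
  exact Finset.prod_congr rfl fun a _ => by rw [cs_neg_arg]

theorem ker_zero : ker 0 = 1 := by
  unfold ker cs
  refine Finset.prod_eq_one fun a _ => ?_
  rw [mFourier_single, Pi.zero_apply, fourier_eval_zero]
  norm_num

theorem ker_lt (s : T3) (hs : s ≠ 0) : ker s < ker 0 := by
  rw [ker_zero]
  obtain ⟨a, ha⟩ := Function.ne_iff.mp hs
  have h1 : (1 + cs (Pi.single a 1) s) / 2 < 1 := by
    have h2 : cs (Pi.single a 1) s < 1 := by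
      refine lt_of_le_of_ne (abs_le.mp (cs_abs (Pi.single a 1) s)).2 fun h => ha ?_
      have h3 : mFourier (Pi.single a 1) s = 1 := by
        have h4 := mF_norm (Pi.single a 1) s
        unfold cs at h
        have h5 : (mFourier (Pi.single a 1) s).im = 0 := by
          have h6 : ‖mFourier (Pi.single a 1) s‖ ^ 2 = 1 := by rw [h4]; norm_num
          rw [← Complex.normSq_eq_norm_sq, Complex.normSq_apply, h] at h6
          nlinarith
        exact Complex.ext h h5
      rw [mFourier_single, fourier_one] at h3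
      have h7 : AddCircle.toCircle (s a) = AddCircle.toCircle (0 : UnitAddCircle) := by
        rw [AddCircle.toCircle_zero]
        exact Circle.ext (by rw [h3, Circle.coe_one])
      exact AddCircle.injective_toCircle one_ne_zero h7
    linarith
  unfold ker
  rw [← Finset.mul_prod_erase Finset.univ _ (Finset.mem_univ a)]
  have h8 : ∏ b ∈ Finset.univ.erase a, (1 + cs (Pi.single b 1) s) / 2 ≤ 1 :=
    Finset.prod_le_one (fun b _ => ker_factor_nonneg b s) fun b _ => ker_factor_le b s
  have h9 : 0 ≤ ∏ b ∈ Finset.univ.erase a, (1 + cs (Pi.single b 1) s) / 2 :=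
    Finset.prod_nonneg fun b _ => ker_factor_nonneg b s
  nlinarith [ker_factor_nonneg a s]

theorem ker_mem (k : ℕ) : ∃ p : Mom →₀ ℂ, ∀ s : T3,
    ((ker s ^ k : ℝ) : ℂ) = ∑ n ∈ p.support, p n * mFourier n s := by
  let E : Fin 3 → C(T3, ℂ) := fun a => mFourier (Pi.single a 1)
  let G : C(T3, ℂ) := ∏ a : Fin 3, ((1 / 2 : ℂ) • (1 : C(T3, ℂ)) + (1 / 4 : ℂ) • (E a + star (E a)))
  have hE : ∀ a, E a ∈ mFourierSubalgebra (Fin 3) := fun a =>
    Algebra.subset_adjoin (Set.mem_range_self _)
  have hG : G ^ k ∈ (mFourierSubalgebra (Fin 3)).toSubalgebra := by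
    refine pow_mem (Subalgebra.prod_mem _ fun a _ => ?_) k
    refine add_mem (Subalgebra.smul_mem _ (one_mem _) _) (Subalgebra.smul_mem _ ?_ _)
    exact add_mem (hE a) (star_mem (s := mFourierSubalgebra (Fin 3)) (hE a))
  have hG' : G ^ k ∈ Submodule.span ℂ (Set.range (mFourier (d := Fin 3))) := by
    rw [← mFourierSubalgebra_coe]
    exact hG
  obtain ⟨p, hp⟩ := Finsupp.mem_span_range_iff_exists_finsupp.mp hG'
  refine ⟨p, fun s => ?_⟩
  have h1 : (G ^ k) s = ((ker s ^ k : ℝ) : ℂ) := by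
    rw [ContinuousMap.pow_apply, Complex.ofReal_pow]
    congr 1
    simp only [G, ContinuousMap.prod_apply, ker, Complex.ofReal_prod]
    refine Finset.prod_congr rfl fun a _ => ?_
    simp only [ContinuousMap.add_apply, ContinuousMap.smul_apply, ContinuousMap.one_apply,
      ContinuousMap.star_apply, smul_eq_mul, E, cs]
    have h2 := Complex.add_conj (mFourier (Pi.single a 1) s)
    rw [← starRingEnd_apply, h2]
    push_cast
    ring
  rw [← h1, ← hp, Finsupp.sum]
  simp [ContinuousMap.sum_apply]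

theorem coeff_poly {B : Finset Mom} {a : Mom → ℂ} (ha : ∀ n, n ∉ B → a n = 0) {g : T3 → ℂ}
    (hg : ∀ y, g y = ∑ n ∈ B, a n * mFourier n y) (n : Mom) : mFourierCoeff g n = a n := by
  unfold mFourierCoeff
  have h1 : ∀ y : T3, mFourier (-n) y • g y =
      ∑ m ∈ B, a m * (conj (mFourier n y) * mFourier m y) := by
    intro y
    rw [hg, smul_eq_mul, Finset.mul_sum, mFourier_neg]
    exact Finset.sum_congr rfl fun m _ => by ring
  simp_rw [h1]
  rw [integral_finsetSum]
  · simp_rw [integral_const_mul, orth]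
    by_cases hn : n ∈ B
    · rw [Finset.sum_eq_single n]
      · rw [if_pos rfl, mul_one]
      · intro b _ hb
        rw [if_neg (Ne.symm hb), mul_zero]
      · intro h; exact absurd hn h
    · rw [ha n hn]
      refine Finset.sum_eq_zero fun m hm => ?_
      rw [if_neg, mul_zero]
      rintro rfl
      exact hn hm
  · intro m _
    refine Integrable.const_mul ?_ _
    exact cont_integrable (by fun_prop)

/-- total mass of the kernel -/
def Z (k : ℕ) : ℝ := ∫ s : T3, ker s ^ k

theorem Z_pos (k : ℕ) : 0 < Z k := by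
  unfold Z
  have hc : Continuous fun s : T3 => ker s ^ k := ker_cont.pow k
  refine hc.integral_pos_of_hasCompactSupport_nonneg_nonzero
    (HasCompactSupport.of_compactSpace _) (fun s => pow_nonneg (ker_nonneg s) k) (x := 0) ?_
  rw [ker_zero, one_pow]
  exact one_ne_zero

/-- the smoothed function -/
def smo (k : ℕ) (f : T3 → ℝ) (x : T3) : ℝ := (Z k)⁻¹ * ∫ s, ker s ^ k * f (x - s)

theorem smo_eq {f : T3 → ℝ} (k : ℕ) (x : T3) :
    ∫ s, ker s ^ k * f (x - s) = ∫ y, ker (x - y) ^ k * f y := by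
  rw [← integral_sub_left_eq_self (fun y : T3 => ker (x - y) ^ k * f y) volume x]
  simp only [sub_sub_cancel]

theorem smo_abs {f : T3 → ℝ} {M : ℝ} (hM : ∀ y, |f y| ≤ M) (k : ℕ) (x : T3) :
    |smo k f x| ≤ M := by
  unfold smo
  rw [abs_mul, abs_inv, abs_of_pos (Z_pos k), inv_mul_le_iff₀ (Z_pos k)]
  have h1 : ‖∫ s, ker s ^ k * f (x - s)‖ ≤ ∫ s : T3, ker s ^ k * M := by
    refine norm_integral_le_of_norm_le ?_ (Filter.Eventually.of_forall fun s => ?_)
    · exact cont_integrable_real ((ker_cont.pow k).mul continuous_const)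
    · rw [norm_mul, Real.norm_eq_abs, Real.norm_eq_abs, abs_of_nonneg (pow_nonneg (ker_nonneg s) k)]
      exact mul_le_mul_of_nonneg_left (hM _) (pow_nonneg (ker_nonneg s) k)
  rw [integral_mul_const] at h1
  exact h1

theorem smo_tendsto {f : T3 → ℝ} (hf : Continuous f) (x : T3) :
    Tendsto (fun k => smo k f x) atTop (𝓝 (f x)) := by
  have h1 := tendsto_setIntegral_pow_smul_of_unique_maximum_of_isCompact_of_continuousOn
    (μ := (volume : Measure T3)) (s := Set.univ) (x₀ := (0 : T3)) isCompact_univ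
    (c := ker) (g := fun s => f (x - s)) ker_cont.continuousOn (fun y _ hy => ker_lt y hy)
    (fun y _ => ker_nonneg y) (by rw [ker_zero]; exact one_pos) (by simp)
    (by fun_prop)
  simp only [Measure.restrict_univ, smul_eq_mul, sub_zero] at h1
  exact h1

theorem smo_poly {f : T3 → ℝ} (hf : Continuous f) (he : ∀ y, f (-y) = f y)
    (h0 : ∫ y, f y = 0) (k : ℕ) :
    ∃ B1 : Finset Mom, Sym B1 ∧ ∃ c1 : Mom → ℝ, (∀ n, c1 (-n) = c1 n) ∧
      (∀ n, |c1 n| ≤ |∫ y, f y * cs n y|) ∧ ∀ x, wf B1 c1 x = smo k f x := by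
  obtain ⟨p, hp⟩ := ker_mem k
  have hkc : Continuous fun s : T3 => ker s ^ k := ker_cont.pow k
  have hke : ∀ s : T3, ker (-s) ^ k = ker s ^ k := fun s => by rw [ker_neg]
  have hpc : ∀ n, p n = ((∫ y, ker y ^ k * cs n y : ℝ) : ℂ) := by
    intro n
    rw [← coeff_even hkc hke n]
    exact (coeff_poly (fun n hn => Finsupp.notMem_support_iff.mp hn) hp n).symm
  have hpneg : ∀ n, p (-n) = p n := by
    intro n
    rw [hpc, hpc]
    simp_rw [cs_neg]
  refine ⟨p.support.erase 0, ⟨?_, ?_⟩, fun n => (Z k)⁻¹ * (∫ y, ker y ^ k * cs n y) *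
    (∫ y, f y * cs n y), ?_, ?_, ?_⟩
  · intro n hn
    rw [Finset.mem_erase] at hn ⊢
    refine ⟨neg_ne_zero.mpr hn.1, ?_⟩
    rw [Finsupp.mem_support_iff, hpneg]
    exact Finsupp.mem_support_iff.mp hn.2
  · exact Finset.notMem_erase _ _
  · intro n
    simp_rw [cs_neg]
  · intro n
    rw [abs_mul]
    have h1 : |(Z k)⁻¹ * ∫ y, ker y ^ k * cs n y| ≤ 1 := by
      rw [abs_mul, abs_inv, abs_of_pos (Z_pos k), inv_mul_le_iff₀ (Z_pos k), mul_one]
      have h2 : ‖∫ s : T3, ker s ^ k * cs n s‖ ≤ ∫ s : T3, ker s ^ k := by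
        refine norm_integral_le_of_norm_le (cont_integrable_real hkc)
          (Filter.Eventually.of_forall fun s => ?_)
        rw [norm_mul, Real.norm_eq_abs, Real.norm_eq_abs,
          abs_of_nonneg (pow_nonneg (ker_nonneg s) k)]
        exact mul_le_of_le_one_right (pow_nonneg (ker_nonneg s) k) (cs_abs n s)
      exact h2
    calc _ ≤ 1 * |∫ y, f y * cs n y| := mul_le_mul_of_nonneg_right h1 (abs_nonneg _)
      _ = _ := one_mul _
  · intro x
    have h1 : ((∫ y, ker (x - y) ^ k * f y : ℝ) : ℂ) =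
        ∑ n ∈ p.support, ((∫ y, ker y ^ k * cs n y) * (∫ y, f y * cs n y) : ℝ) *
          mFourier n x := by
      rw [← integral_complex_ofReal]
      have h2 : ∀ y : T3, ((ker (x - y) ^ k * f y : ℝ) : ℂ) =
          ∑ n ∈ p.support, (p n * mFourier n x) * (mFourier (-n) y • ((f y : ℝ) : ℂ)) := by
        intro y
        rw [Complex.ofReal_mul, hp, Finset.sum_mul]
        refine Finset.sum_congr rfl fun n _ => ?_
        rw [sub_eq_add_neg, mF_add_arg, mF_neg_arg, mFourier_neg, smul_eq_mul]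
        ring
      simp_rw [h2]
      rw [integral_finsetSum]
      · refine Finset.sum_congr rfl fun n _ => ?_
        rw [integral_const_mul]
        have h3 : ∫ y : T3, mFourier (-n) y • ((f y : ℝ) : ℂ) =
            ((∫ y, f y * cs n y : ℝ) : ℂ) := coeff_even hf he n
        rw [h3, hpc n]
        push_cast
        ring
      · intro n _
        exact (cont_integrable (by fun_prop)).const_mul _
    have h4 : ∫ y, ker (x - y) ^ k * f y =
        ∑ n ∈ p.support, ((∫ y, ker y ^ k * cs n y) * (∫ y, f y * cs n y)) * cs n x := by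
      have h5 := congrArg Complex.re h1
      rw [Complex.ofReal_re, Complex.re_sum] at h5
      rw [h5]
      refine Finset.sum_congr rfl fun n _ => ?_
      rw [Complex.re_ofReal_mul]
      rfl
    unfold smo
    rw [smo_eq, h4]
    unfold wf
    by_cases h6 : (0 : Mom) ∈ p.support
    · rw [← Finset.add_sum_erase _ _ h6]
      have h7 : ∫ y, f y * cs 0 y = 0 := by
        rw [← h0]
        refine integral_congr_ae (Filter.Eventually.of_forall fun y => ?_)
        simp [cs, mFourier_zero]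
      rw [h7, mul_zero, zero_mul, zero_add, Finset.mul_sum]
      exact Finset.sum_congr rfl fun n _ => by ring
    · rw [Finset.erase_eq_of_notMem h6, Finset.mul_sum]
      exact Finset.sum_congr rfl fun n _ => by ring

/-! ### limits -/

theorem int_mul {W : T3 → ℝ} (hW : Integrable W) {g : T3 → ℝ} (hg : Continuous g) :
    Integrable (fun y => W y * g y) := by
  obtain ⟨C, hC⟩ := isCompact_univ.exists_bound_of_continuousOn (f := g) hg.continuousOn
  exact hW.mul_bdd hg.aestronglyMeasurable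
    (Filter.Eventually.of_forall fun y => hC y (Set.mem_univ y))

theorem lim_K {W : T3 → ℝ} (hW : Pot W) :
    Tendsto (fun K : ℝ => ∫ y, (W y - min (W y) K)) atTop (𝓝 0) := by
  have h := tendsto_integral_filter_of_dominated_convergence (μ := (volume : Measure T3))
    (l := (atTop : Filter ℝ)) (F := fun K y => W y - min (W y) K) (f := fun _ => (0 : ℝ))
    (bound := W) ?_ ?_ hW.int ?_
  · simpa using h
  · refine Filter.Eventually.of_forall fun K => ?_
    have h1 : AEStronglyMeasurable W volume := hW.int.aestronglyMeasurable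
    exact h1.sub (h1.inf aestronglyMeasurable_const)
  · filter_upwards [eventually_ge_atTop (0 : ℝ)] with K hK
    refine Filter.Eventually.of_forall fun y => ?_
    have h1 := hW.nonneg y
    have h2 : 0 ≤ min (W y) K := le_min h1 hK
    have h3 : min (W y) K ≤ W y := min_le_left _ _
    rw [Real.norm_eq_abs, abs_of_nonneg (by linarith)]
    linarith
  · refine Filter.Eventually.of_forall fun y => ?_
    refine tendsto_const_nhds.congr' ?_
    filter_upwards [eventually_ge_atTop (W y)] with K hK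
    rw [min_eq_left hK, sub_self]

theorem lim_k {W : T3 → ℝ} (hW : Pot W) {f : T3 → ℝ} (hf : Continuous f)
    (he : ∀ y, f (-y) = f y) (h0 : ∫ y, f y = 0) {M : ℝ} (hM : ∀ y, |f y| ≤ M) :
    Tendsto (fun k : ℕ => ∫ y, W y * (1 - smo k f y) ^ 2) atTop
      (𝓝 (∫ y, W y * (1 - f y) ^ 2)) := by
  have hM0 : 0 ≤ M := (abs_nonneg _).trans (hM 0)
  have hcont : ∀ k, Continuous (smo k f) := by
    intro k
    obtain ⟨B1, _, c1, _, _, h⟩ := smo_poly hf he h0 k
    have : smo k f = wf B1 c1 := funext fun x => (h x).symm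
    rw [this]
    exact wf_cont _ _
  refine tendsto_integral_of_dominated_convergence (fun y => W y * (1 + M) ^ 2) ?_ ?_ ?_ ?_
  · intro k
    have := hcont k
    exact (int_mul hW.int (g := fun y => (1 - smo k f y) ^ 2) (by fun_prop)).aestronglyMeasurable
  · exact hW.int.mul_const _
  · intro k
    refine Filter.Eventually.of_forall fun y => ?_
    rw [norm_mul, Real.norm_eq_abs, Real.norm_eq_abs, abs_of_nonneg (hW.nonneg y),
      abs_of_nonneg (sq_nonneg _)]
    refine mul_le_mul_of_nonneg_left ?_ (hW.nonneg y)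
    have h1 := abs_le.mp (smo_abs hM k y)
    exact sq_le_sq' (by linarith) (by linarith)
  · refine Filter.Eventually.of_forall fun y => ?_
    exact ((tendsto_const_nhds.sub (smo_tendsto hf y)).pow 2).const_mul _

theorem cs_int {n : Mom} (hn : n ≠ 0) : ∫ y, cs n y = 0 := by
  have h := orth 0 n
  rw [if_neg (Ne.symm hn)] at h
  have h1 : ∫ y : T3, mFourier n y = 0 := by
    rw [← h]
    refine integral_congr_ae (Filter.Eventually.of_forall fun y => ?_)
    simp [mFourier_zero]
  have h2 : (∫ y : T3, mFourier n y).re = ∫ y, cs n y := by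
    rw [← Complex.reCLM_apply, ← ContinuousLinearMap.integral_comp_comm _
      (cont_integrable (mFourier n).continuous)]
    rfl
  rw [← h2, h1, Complex.zero_re]

theorem wf_int {B : Finset Mom} (hB : Sym B) (c : Mom → ℝ) : ∫ y, wf B c y = 0 := by
  unfold wf
  rw [integral_finsetSum]
  · refine Finset.sum_eq_zero fun n hn => ?_
    rw [integral_const_mul, cs_int, mul_zero]
    rintro rfl
    exact hB.zero hn
  · intro n _
    exact (cont_integrable_real (cs_cont n)).const_mul _

theorem wf_sq_int {B : Finset Mom} (hB : Sym B) {c : Mom → ℝ} (hc : ∀ n, c (-n) = c n) :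
    ∫ y, wf B c y ^ 2 = ∑ n ∈ B, c n ^ 2 := by
  have h := parseval_poly B (fun n => (c n : ℂ))
  simp_rw [← wf_complex hB hc, Complex.norm_real, Real.norm_eq_abs, sq_abs] at h
  exact h

theorem bessel_real {f : T3 → ℝ} (hf : Continuous f) (he : ∀ y, f (-y) = f y) (F : Finset Mom) :
    ∑ n ∈ F, (∫ y, f y * cs n y) ^ 2 ≤ ∫ y, f y ^ 2 := by
  have hg : Continuous fun y : T3 => ((f y : ℝ) : ℂ) := by fun_prop
  have h1 := bessel ⟨_, hg⟩ F
  simp only [ContinuousMap.coe_mk] at h1
  simp_rw [coeff_even hf he, Complex.norm_real, Real.norm_eq_abs, sq_abs] at h1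
  exact h1

/-! ### the clip -/

theorem clip_lip (T a b : ℝ) : |max (-T) (min T a) - max (-T) (min T b)| ≤ |a - b| := by
  have h1 : |max (-T) (min T a) - max (-T) (min T b)| ≤ |min T a - min T b| := by
    rw [max_comm (-T), max_comm (-T)]
    exact abs_max_sub_max_le_abs _ _ _
  refine h1.trans ?_
  have h2 := abs_min_sub_min_le_max T a T b
  rw [sub_self, abs_zero, max_eq_right (abs_nonneg _)] at h2
  exact h2

theorem clip_id {T a : ℝ} (h : |a| ≤ T) : max (-T) (min T a) = a := by
  obtain ⟨h1, h2⟩ := abs_le.mp h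
  rw [min_eq_right h2, max_eq_right h1]

theorem clip_abs {T : ℝ} (hT : 0 ≤ T) (a : ℝ) : |max (-T) (min T a)| ≤ T := by
  rw [abs_le]
  exact ⟨le_max_left _ _, max_le (by linarith) (min_le_left _ _)⟩

theorem shift_sq {m x1 x : ℝ} (hm : |m| ≤ 1) (hx : |x1| ≤ |x|) :
    (x1 + m) ^ 2 ≤ x ^ 2 + |m| * (2 + x ^ 2) := by
  have h3 : x1 ^ 2 ≤ x ^ 2 := sq_le_sq.mpr hx
  have h6 : m * x1 ≤ |m| * |x1| := by
    rw [← abs_mul]; exact le_abs_self _
  have h7 : 2 * |x1| ≤ 1 + x1 ^ 2 := by
    rw [← sq_abs x1]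
    nlinarith [sq_nonneg (|x1| - 1)]
  have h8 : m ^ 2 ≤ |m| := by
    rw [← sq_abs, pow_two]
    exact mul_le_of_le_one_left (abs_nonneg m) hm
  have h9 : |m| * (2 * |x1|) ≤ |m| * (1 + x ^ 2) :=
    mul_le_mul_of_nonneg_left (by linarith) (abs_nonneg m)
  have h10 : (x1 + m) ^ 2 = x1 ^ 2 + 2 * (m * x1) + m ^ 2 := by ring
  rw [h10]
  linarith

end ClipH44

open ClipH44

theorem clip {W : T3 → ℝ} (hW : Pot W) (hWm : Measurable W) {q μ : ℝ} (hq : 0 < q) (hμ : 0 < μ)
    {ε : ℝ} (hε : 0 < ε) :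
    ∃ K0 : ℝ, ∀ K, K0 ≤ K → ∀ B0 : Finset Mom, Sym B0 → ∀ c : Mom → ℝ, (∀ n, c (-n) = c n) →
      Qf (fun y => min (W y) K) q μ B0 c ≤ (∫ y, W y) + 1 →
      ∃ B1 : Finset Mom, Sym B1 ∧ ∃ c1 : Mom → ℝ, (∀ n, c1 (-n) = c1 n) ∧
        Qf W q μ B1 c1 ≤ Qf (fun y => min (W y) K) q μ B0 c + ε := by
  set I : ℝ := ∫ y, W y with hI
  have hI0 : 0 ≤ I := integral_nonneg hW.nonneg
  obtain ⟨T, hT1, hT2, hT3⟩ : ∃ T : ℝ, 1 ≤ T ∧ (I + 1) / (2 * μ) ≤ T ∧
      3 * (I + 1) * (3 * I + 1) / (2 * μ * ε) ≤ T :=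
    ⟨max 1 (max ((I + 1) / (2 * μ)) (3 * (I + 1) * (3 * I + 1) / (2 * μ * ε))),
      le_max_left _ _, (le_max_left _ _).trans (le_max_right _ _),
      (le_max_right _ _).trans (le_max_right _ _)⟩
  have hT0 : 0 < T := by linarith
  obtain ⟨K1, hK1⟩ : ∃ K1 : ℝ, ∀ K, K1 ≤ K →
      (T + 2) ^ 2 * ∫ y, (W y - min (W y) K) < ε / 3 := by
    have h1 := (lim_K hW).const_mul ((T + 2) ^ 2)
    rw [mul_zero] at h1
    have h2 := h1.eventually (gt_mem_nhds (by positivity : (0 : ℝ) < ε / 3))
    exact eventually_atTop.mp h2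
  refine ⟨max K1 0, fun K hK B0 hB0 c hc hQ => ?_⟩
  have hKK : K1 ≤ K := (le_max_left _ _).trans hK
  have hK0 : 0 ≤ K := (le_max_right _ _).trans hK
  have hWK0 : ∀ y, 0 ≤ min (W y) K := fun y => le_min (hW.nonneg y) hK0
  have hWKle : ∀ y, min (W y) K ≤ W y := fun y => min_le_left _ _
  have hWKi : Integrable (fun y => min (W y) K) := by
    refine hW.int.mono' (hW.int.aestronglyMeasurable.inf aestronglyMeasurable_const)
      (Filter.Eventually.of_forall fun y => ?_)
    rw [Real.norm_eq_abs, abs_of_nonneg (hWK0 y)]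
    exact hWKle y
  set w := wf B0 c with hw
  have hwc : Continuous w := wf_cont _ _
  set S := ∑ n ∈ B0, c n ^ 2 with hS
  set D := ∑ n ∈ B0, sq n * c n ^ 2 with hD
  set A := ∫ y, min (W y) K * (1 - w y) ^ 2 with hA
  have hS0 : 0 ≤ S := Finset.sum_nonneg fun n _ => sq_nonneg _
  have hD0 : 0 ≤ D := Finset.sum_nonneg fun n _ =>
    mul_nonneg (Finset.sum_nonneg fun a _ => sq_nonneg _) (sq_nonneg _)
  have hA0 : 0 ≤ A := integral_nonneg fun y => mul_nonneg (hWK0 y) (sq_nonneg _)
  have hQe : Qf (fun y => min (W y) K) q μ B0 c = A + 2 * q * D + 2 * μ * S := by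
    unfold Qf
    rw [hA, hD, hS, Finset.mul_sum, Finset.mul_sum, add_assoc, ← Finset.sum_add_distrib]
    congr 1
    exact Finset.sum_congr rfl fun n _ => by ring
  rw [hQe] at hQ ⊢
  have hSle : S ≤ (I + 1) / (2 * μ) := by
    rw [le_div_iff₀ (by positivity)]
    nlinarith [mul_nonneg hq.le hD0]
  have hAle : A ≤ I + 1 := by
    nlinarith [mul_nonneg hq.le hD0, mul_nonneg hμ.le hS0]
  -- the clipped function
  set w1 : T3 → ℝ := fun y => max (-T) (min T (w y)) with hw1
  have hw1c : Continuous w1 := continuous_const.max (continuous_const.min hwc)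
  have hw1abs : ∀ y, |w1 y| ≤ T := fun y => clip_abs hT0.le _
  have hw1lip : ∀ x y, |w1 x - w1 y| ≤ |w x - w y| := fun x y => clip_lip T _ _
  have hw1one : ∀ y, |1 - w1 y| ≤ |1 - w y| := by
    intro y
    have h := clip_lip T 1 (w y)
    rwa [clip_id (by rw [abs_one]; exact hT1)] at h
  have hw1sq : ∀ y, w1 y ^ 2 ≤ w y ^ 2 := by
    intro y
    have h := clip_lip T (w y) 0
    rw [clip_id (T := T) (a := 0) (by rw [abs_zero]; exact hT0.le), sub_zero, sub_zero] at h
    exact sq_le_sq.mpr h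
  have hw1even : ∀ y, w1 (-y) = w1 y := by
    intro y
    simp only [hw1, hw, wf_neg_arg]
  have hw1diff : ∀ y, |w1 y - w y| ≤ w y ^ 2 / T := by
    intro y
    rw [le_div_iff₀ hT0]
    by_cases h : |w y| ≤ T
    · simp only [hw1]
      rw [clip_id h, sub_self, abs_zero, zero_mul]
      positivity
    · push Not at h
      have h2 : |w1 y - w y| ≤ |w y| := by
        rcases le_total 0 (w y) with h3 | h3
        · rw [abs_of_nonneg h3] at h ⊢
          have : w1 y = T := by
            simp only [hw1]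
            rw [min_eq_left h.le, max_eq_right (by linarith)]
          rw [this, abs_le]
          constructor <;> linarith
        · rw [abs_of_nonpos h3] at h ⊢
          have : w1 y = -T := by
            simp only [hw1]
            rw [min_eq_right (by linarith), max_eq_left (by linarith)]
          rw [this, abs_le]
          constructor <;> linarith
      have h4 : w y ^ 2 = |w y| * |w y| := by rw [← pow_two, sq_abs]
      rw [h4]
      exact mul_le_mul h2 h.le hT0.le (abs_nonneg _)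
  set m : ℝ := ∫ y, w1 y with hm
  have hmle : |m| ≤ S / T := by
    have h1 : m = ∫ y, (w1 y - w y) := by
      rw [integral_sub (cont_integrable_real hw1c) (cont_integrable_real hwc), hw,
        wf_int hB0, sub_zero]
    rw [h1]
    have h2 : ‖∫ y, (w1 y - w y)‖ ≤ ∫ y, w y ^ 2 / T :=
      norm_integral_le_of_norm_le (cont_integrable_real (by fun_prop))
        (Filter.Eventually.of_forall hw1diff)
    rw [integral_div, hw, wf_sq_int hB0 hc] at h2
    exact h2
  have hm1 : |m| ≤ 1 := by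
    refine hmle.trans ?_
    rw [div_le_one hT0]
    exact hSle.trans hT2
  have hmε : |m| * (3 * I + 1) ≤ ε / 3 := by
    have h1 : |m| ≤ ((I + 1) / (2 * μ)) / T :=
      hmle.trans (div_le_div_of_nonneg_right hSle hT0.le)
    have h2 : |m| * (3 * I + 1) ≤ ((I + 1) / (2 * μ)) / T * (3 * I + 1) :=
      mul_le_mul_of_nonneg_right h1 (by linarith)
    refine h2.trans ?_
    rw [div_le_iff₀ (by positivity)] at hT3
    have h3 : (I + 1) / (2 * μ) / T * (3 * I + 1) =
        (3 * (I + 1) * (3 * I + 1)) / (3 * (2 * μ * T)) := by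
      field_simp
    rw [h3, div_le_div_iff₀ (by positivity) (by norm_num)]
    nlinarith
  set w2 : T3 → ℝ := fun y => w1 y - m with hw2
  have hw2c : Continuous w2 := hw1c.sub continuous_const
  have hw2even : ∀ y, w2 (-y) = w2 y := fun y => by simp only [hw2, hw1even]
  have hw2int : ∫ y, w2 y = 0 := by
    simp only [hw2]
    rw [integral_sub (cont_integrable_real hw1c) (integrable_const _), integral_const]
    simp [hm]
  have hw2abs : ∀ y, |w2 y| ≤ T + 1 := by
    intro y
    exact (abs_sub _ _).trans (add_le_add (hw1abs y) hm1)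
  have hw2lip : ∀ x y, |w2 x - w2 y| ≤ |wf B0 c x - wf B0 c y| := by
    intro x y
    have : w2 x - w2 y = w1 x - w1 y := by simp only [hw2]; ring
    rw [this]
    exact hw1lip x y
  have hw2sq : ∫ y, w2 y ^ 2 ≤ S := by
    have h1 : ∫ y, w2 y ^ 2 = (∫ y, w1 y ^ 2) - m ^ 2 := by
      have h2 : ∀ y, w2 y ^ 2 = w1 y ^ 2 - (2 * m) * w1 y + m ^ 2 := fun y => by
        simp only [hw2]; ring
      simp_rw [h2]
      rw [integral_add, integral_sub, integral_const_mul, integral_const]
      · simp only [probReal_univ, one_smul, ← hm]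
        ring
      · exact cont_integrable_real (by fun_prop)
      · exact cont_integrable_real (by fun_prop)
      · exact cont_integrable_real (by fun_prop)
      · exact integrable_const _
    have h3 : ∫ y, w1 y ^ 2 ≤ ∫ y, w y ^ 2 :=
      integral_mono (cont_integrable_real (by fun_prop)) (cont_integrable_real (by fun_prop)) hw1sq
    rw [hw, wf_sq_int hB0 hc] at h3
    nlinarith [sq_nonneg m]
  have hA2 : ∫ y, W y * (1 - w2 y) ^ 2 ≤ A + |m| * (3 * I + 1) +
      (T + 2) ^ 2 * ∫ y, (W y - min (W y) K) := by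
    have h1 : ∀ y, W y * (1 - w2 y) ^ 2 ≤ (min (W y) K * (1 - w y) ^ 2 +
        |m| * (2 * min (W y) K + min (W y) K * (1 - w y) ^ 2)) +
        (T + 2) ^ 2 * (W y - min (W y) K) := by
      intro y
      have h2 : (1 - w2 y) ^ 2 ≤ (1 - w y) ^ 2 + |m| * (2 + (1 - w y) ^ 2) := by
        have h4 : 1 - w2 y = (1 - w1 y) + m := by simp only [hw2]; ring
        rw [h4]
        exact shift_sq hm1 (hw1one y)
      have h9 : (1 - w2 y) ^ 2 ≤ (T + 2) ^ 2 := by
        have := abs_le.mp (hw2abs y)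
        exact sq_le_sq' (by linarith) (by linarith)
      have h10 : W y * (1 - w2 y) ^ 2 = min (W y) K * (1 - w2 y) ^ 2 +
          (W y - min (W y) K) * (1 - w2 y) ^ 2 := by ring
      rw [h10]
      have h11 := mul_le_mul_of_nonneg_left h2 (hWK0 y)
      have h12 := mul_le_mul_of_nonneg_left h9 (sub_nonneg.mpr (hWKle y))
      refine (add_le_add h11 h12).trans (le_of_eq ?_)
      ring
    have hi1 : Integrable fun y => min (W y) K * (1 - w y) ^ 2 :=
      int_mul hWKi (g := fun y => (1 - w y) ^ 2) (by fun_prop)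
    have hi2 : Integrable fun y => |m| * (2 * min (W y) K + min (W y) K * (1 - w y) ^ 2) :=
      ((hWKi.const_mul 2).add hi1).const_mul _
    have hi3 : Integrable fun y => (T + 2) ^ 2 * (W y - min (W y) K) :=
      (hW.int.sub hWKi).const_mul _
    have hi12 : Integrable fun y => min (W y) K * (1 - w y) ^ 2 +
        |m| * (2 * min (W y) K + min (W y) K * (1 - w y) ^ 2) := hi1.add hi2
    have hi123 : Integrable fun y => (min (W y) K * (1 - w y) ^ 2 +
        |m| * (2 * min (W y) K + min (W y) K * (1 - w y) ^ 2)) +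
        (T + 2) ^ 2 * (W y - min (W y) K) := hi12.add hi3
    have h2 := integral_mono (int_mul hW.int (g := fun y => (1 - w2 y) ^ 2) (by fun_prop))
      hi123 h1
    have h3 : ∫ y, ((min (W y) K * (1 - w y) ^ 2 +
        |m| * (2 * min (W y) K + min (W y) K * (1 - w y) ^ 2)) +
        (T + 2) ^ 2 * (W y - min (W y) K)) = A + |m| * (2 * (∫ y, min (W y) K) + A) +
        (T + 2) ^ 2 * ∫ y, (W y - min (W y) K) := by
      rw [integral_add hi12 hi3, integral_add hi1 hi2, integral_const_mul,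
        integral_const_mul, integral_add (hWKi.const_mul 2) hi1, integral_const_mul]
    have h4 : ∫ y, min (W y) K ≤ I := integral_mono hWKi hW.int hWKle
    have h5 : |m| * (2 * (∫ y, min (W y) K) + A) ≤ |m| * (3 * I + 1) :=
      mul_le_mul_of_nonneg_left (by linarith) (abs_nonneg _)
    refine h2.trans ?_
    rw [h3]
    linarith
  obtain ⟨k, hk⟩ : ∃ k : ℕ, ∫ y, W y * (1 - smo k w2 y) ^ 2 <
      (∫ y, W y * (1 - w2 y) ^ 2) + ε / 3 := by
    have h1 := lim_k hW hw2c hw2even hw2int hw2abs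
    exact (h1.eventually (gt_mem_nhds (by linarith))).exists
  obtain ⟨B1, hB1, c1, hc1, hc1le, hc1e⟩ := smo_poly hw2c hw2even hw2int k
  refine ⟨B1, hB1, c1, hc1, ?_⟩
  have hsum : ∑ n ∈ B1, (2 * (q * sq n) + 2 * μ) * c1 n ^ 2 ≤ 2 * q * D + 2 * μ * S := by
    have hsq0 : ∀ n, 0 ≤ sq n := fun n => Finset.sum_nonneg fun a _ => sq_nonneg _
    have h1 : ∀ n ∈ B1, (2 * (q * sq n) + 2 * μ) * c1 n ^ 2 ≤
        2 * q * (sq n * (∫ y, w2 y * cs n y) ^ 2) + 2 * μ * (∫ y, w2 y * cs n y) ^ 2 := by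
      intro n _
      have h2 : c1 n ^ 2 ≤ (∫ y, w2 y * cs n y) ^ 2 := sq_le_sq.mpr (hc1le n)
      have h3 : 0 ≤ 2 * (q * sq n) + 2 * μ := by
        have := mul_nonneg hq.le (hsq0 n)
        linarith
      have h4 := mul_le_mul_of_nonneg_left h2 h3
      nlinarith
    refine (Finset.sum_le_sum h1).trans ?_
    rw [Finset.sum_add_distrib, ← Finset.mul_sum, ← Finset.mul_sum]
    have h5 := dirichlet_le hB0 hc hw2c hw2lip B1
    simp_rw [coeff_even hw2c hw2even, Complex.norm_real, Real.norm_eq_abs, sq_abs] at h5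
    have h6 := (bessel_real hw2c hw2even B1).trans hw2sq
    have h7 := mul_le_mul_of_nonneg_left h5 (by positivity : (0 : ℝ) ≤ 2 * q)
    have h8 := mul_le_mul_of_nonneg_left h6 (by positivity : (0 : ℝ) ≤ 2 * μ)
    linarith
  have hfin : Qf W q μ B1 c1 = (∫ y, W y * (1 - smo k w2 y) ^ 2) +
      ∑ n ∈ B1, (2 * (q * sq n) + 2 * μ) * c1 n ^ 2 := by
    unfold Qf
    simp_rw [hc1e]
  rw [hfin]
  have h9 := hK1 K hKK
  linarith

end

end Pool.Agent.H751R2.LHY
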